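import Pool.Agent.helper31.GPR.Spec

set_option autoImplicit false

namespace Pool.Agent.GPR

open Pool.Agent.helper25.QST

theorem SYM_two (c : ZMod 2) : c = 0 ∨ c = 1 := by
  fin_cases c
  · exact Or.inl rfl
  · exact Or.inr rfl

theorem SYM_add {V : Type} [AddCommGroup V] [Module (ZMod 2) V] (v : V) : v + v = 0 := by
  have h : (2 : ZMod 2) • v = v + v := two_smul _ v
  have h2 : (2 : ZMod 2) = 0 := by decide
  rw [← h, h2, zero_smul]

theorem SYM_mem {V : Type} [AddCommGroup V] [Module (ZMod 2) V] {x y : V} (hy : y ≠ 0) (h : x ≠ y) :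
    y ∉ Submodule.span (ZMod 2) {x} := by
  intro h1
  obtain ⟨c, hc⟩ := Submodule.mem_span_singleton.1 h1
  rcases SYM_two c with rfl | rfl
  · rw [zero_smul] at hc
    exact hy hc.symm
  · rw [one_smul] at hc
    exact h hc

theorem SYM (hBEX : BEX_stmt) : SYM_stmt := by
  intro V _ _ _ 𝓑 h𝓑 x y J J' hJ hJ'
  by_cases hxy : x = y
  · subst hxy
    rw [hJ.self, hJ'.self, add_zero]
    exact Submodule.zero_mem _
  · have hy : y ∉ Submodule.span (ZMod 2) {x} := SYM_mem hJ'.nz hxy
    have hx : x ∉ Submodule.span (ZMod 2) {y} := SYM_mem hJ.nz (Ne.symm hxy)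
    obtain ⟨B, hB, hxB, hyB, -⟩ := hBEX V 𝓑 h𝓑 x y hJ.nz hy
    have h1 := hJ.blk y hy B hB hxB hyB
    have h2 := hJ'.blk x hx B hB hyB hxB
    have h3 : J' x ∈ B := by
      rw [h2]
      exact Submodule.subset_span (by simp)
    rw [h1, Submodule.mem_span_triple] at h3
    obtain ⟨α, β, γ, h4⟩ := h3
    rcases SYM_two γ with rfl | rfl
    · exfalso
      apply hJ'.out x hx
      rw [← h4, zero_smul, add_zero, Submodule.mem_span_pair]
      exact ⟨β, α, by rw [add_comm]⟩
    · rw [← h4, one_smul, Submodule.mem_span_pair]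
      refine ⟨α, β, ?_⟩
      have h5 := SYM_add (J y)
      calc α • x + β • y = α • x + β • y + 0 := (add_zero _).symm
        _ = α • x + β • y + (J y + J y) := by rw [h5]
        _ = J y + (α • x + β • y + J y) := by abel
end Pool.Agent.GPR
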